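import Mathlib

set_option autoImplicit false

namespace Pool.Agent.MPa19302

def L (n : ℕ) : ℕ := 2 * (n + 1) * (n + 1)

def letter (n p : ℕ) : Bool := decide ((n + 1) ∣ p)

def wordOf (n p : ℕ) : ℕ → List Bool
  | 0 => []
  | (l + 1) => letter n (p + l) :: wordOf n p l

lemma wordOf_length (n p l : ℕ) : (wordOf n p l).length = l := by
  induction l with
  | zero => rfl
  | succ l ih => simp [wordOf, ih]

lemma wordOf_eq_iff (n p m s l : ℕ) :
    wordOf n p l = wordOf m s l ↔ ∀ j < l, letter n (p + j) = letter m (s + j) := by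
  induction l with
  | zero => simp [wordOf]
  | succ l ih =>
    simp only [wordOf, List.cons.injEq, ih]
    constructor
    · rintro ⟨h1, h2⟩ j hj
      rcases Nat.lt_succ_iff_lt_or_eq.1 hj with h | h
      · exact h2 j h
      · subst h; exact h1
    · intro h
      exact ⟨h l (Nat.lt_succ_self l), fun j hj => h j (Nat.lt_succ_of_lt hj)⟩

/-- every factor of length `l` is one of the factors with parameters at most `l` -/
lemma canonical (n p l : ℕ) : ∃ m ≤ l, ∃ s ≤ l, wordOf n p l = wordOf m s l := by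
  by_cases hn : n ≤ l
  · refine ⟨n, hn, p % (n + 1), ?_, ?_⟩
    · have : p % (n + 1) < n + 1 := Nat.mod_lt p (Nat.succ_pos n)
      omega
    · rw [wordOf_eq_iff]
      intro j _
      unfold letter
      have : ((n + 1) ∣ p + j) ↔ ((n + 1) ∣ p % (n + 1) + j) := by
        rw [Nat.dvd_iff_mod_eq_zero, Nat.dvd_iff_mod_eq_zero, Nat.mod_add_mod]
      simp only [this]
  · push Not at hn
    by_cases hex : ∃ j < l, (n + 1) ∣ p + j
    · obtain ⟨j, hj, hd⟩ := hex
      have huniq : ∀ i < l, (n + 1) ∣ p + i → i = j := by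
        intro i hi hdi
        rcases le_total i j with h | h
        · have : (n + 1) ∣ (p + j) - (p + i) := Nat.dvd_sub hd hdi
          have h2 : (p + j) - (p + i) = j - i := by omega
          rw [h2] at this
          rcases Nat.eq_zero_or_pos (j - i) with h0 | h0
          · omega
          · have := Nat.le_of_dvd h0 this
            omega
        · have : (n + 1) ∣ (p + i) - (p + j) := Nat.dvd_sub hdi hd
          have h2 : (p + i) - (p + j) = i - j := by omega
          rw [h2] at this
          rcases Nat.eq_zero_or_pos (i - j) with h0 | h0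
          · omega
          · have := Nat.le_of_dvd h0 this
            omega
      have key : ∀ s ≤ l, (l + 1) ∣ s + j → wordOf n p l = wordOf l s l := by
        intro s hs hsj
        rw [wordOf_eq_iff]
        intro i hi
        unfold letter
        have : ((n + 1) ∣ p + i) ↔ ((l + 1) ∣ s + i) := by
          constructor
          · intro h
            rw [huniq i hi h]
            exact hsj
          · intro h
            have hij : i = j := by
              rcases le_total i j with h' | h'
              · have h1 : (l + 1) ∣ (s + j) - (s + i) := Nat.dvd_sub hsj h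
                have h2 : (s + j) - (s + i) = j - i := by omega
                rw [h2] at h1
                rcases Nat.eq_zero_or_pos (j - i) with h0 | h0
                · omega
                · have := Nat.le_of_dvd h0 h1
                  omega
              · have h1 : (l + 1) ∣ (s + i) - (s + j) := Nat.dvd_sub h hsj
                have h2 : (s + i) - (s + j) = i - j := by omega
                rw [h2] at h1
                rcases Nat.eq_zero_or_pos (i - j) with h0 | h0
                · omega
                · have := Nat.le_of_dvd h0 h1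
                  omega
            rw [hij]; exact hd
        simp only [this]
      rcases Nat.eq_zero_or_pos j with h0 | h0
      · exact ⟨l, le_refl l, 0, Nat.zero_le l, key 0 (Nat.zero_le l) (by simp [h0])⟩
      · refine ⟨l, le_refl l, l + 1 - j, by omega, key _ (by omega) ?_⟩
        have : l + 1 - j + j = l + 1 := by omega
        rw [this]
    · push Not at hex
      refine ⟨l, le_refl l, min 1 l, min_le_right _ _, ?_⟩
      rw [wordOf_eq_iff]
      intro i hi
      unfold letter
      have h1 : ¬ ((n + 1) ∣ p + i) := hex i hi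
      have hmin : min 1 l = 1 := by omega
      have h2 : ¬ ((l + 1) ∣ min 1 l + i) := by
        rw [hmin]
        intro h
        have := Nat.le_of_dvd (by omega) h
        omega
      simp only [h1, h2]

lemma block_unique (n m p : ℕ)
    (h : wordOf n 0 (2 * (n + 1)) = wordOf m p (2 * (n + 1))) : m = n := by
  rw [wordOf_eq_iff] at h
  have e0 := h 0 (by omega)
  have e1 := h (n + 1) (by omega)
  unfold letter at e0 e1
  have d0 : (m + 1) ∣ p := by
    have : decide ((m + 1) ∣ p + 0) = true := by rw [← e0]; simp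
    simpa using this
  have d1 : (m + 1) ∣ p + (n + 1) := by
    have : decide ((m + 1) ∣ p + (n + 1)) = true := by rw [← e1]; simp
    simpa using this
  have d2 : (m + 1) ∣ (n + 1) := (Nat.dvd_add_right d0).1 d1
  have hmn : m + 1 ≤ n + 1 := Nat.le_of_dvd (Nat.succ_pos n) d2
  have e2 := h (m + 1) (by omega)
  unfold letter at e2
  have d3 : (n + 1) ∣ 0 + (m + 1) := by
    have : decide ((n + 1) ∣ 0 + (m + 1)) = true := by
      rw [e2]
      have : (m + 1) ∣ p + (m + 1) := Dvd.dvd.add d0 (dvd_refl _)
      simp [this]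
    simpa using this
  have d4 : (n + 1) ∣ (m + 1) := by simpa using d3
  have hnm : n + 1 ≤ m + 1 := Nat.le_of_dvd (Nat.succ_pos m) d4
  omega

lemma wordOf_period (n r l : ℕ) : wordOf n (2 * (n + 1) * r) l = wordOf n 0 l := by
  rw [wordOf_eq_iff]
  intro j _
  unfold letter
  have : ((n + 1) ∣ 2 * (n + 1) * r + j) ↔ ((n + 1) ∣ 0 + j) := by
    have h1 : (n + 1) ∣ 2 * (n + 1) * r := ⟨2 * r, by ring⟩
    rw [Nat.dvd_add_right h1, zero_add]
  simp only [this]

section Alg

open scoped Pointwise

variable (k : Type) [Field k] {V : Type} [AddCommGroup V] [Module k V]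
  (b : Module.Basis (ℕ × ℕ) k V)

noncomputable def stepFn (c : Bool) (x : ℕ × ℕ) : V :=
  if x.2 < L x.1 ∧ letter x.1 x.2 = c then b (x.1, x.2 + 1) else 0

noncomputable def G (c : Bool) : Module.End k V := b.constr k (stepFn k b c)

lemma G_single (c : Bool) (n p : ℕ) :
    G k b c (b (n, p)) =
      if p < L n ∧ letter n p = c then b (n, p + 1) else 0 := by
  unfold G
  rw [Module.Basis.constr_basis]
  rfl

noncomputable def opE (w : List Bool) : Module.End k V := (w.map (G k b)).prod

lemma opE_nil : opE k b [] = 1 := rfl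

lemma opE_cons (a : Bool) (w : List Bool) : opE k b (a :: w) = G k b a * opE k b w := by
  simp [opE]

lemma opE_single (w : List Bool) (n p : ℕ) :
    (opE k b w (b (n, p)) = b (n, p + w.length) ∧ w = wordOf n p w.length ∧
      (w = [] ∨ p + w.length ≤ L n)) ∨ opE k b w (b (n, p)) = 0 := by
  induction w with
  | nil => left; simp [opE_nil, wordOf]
  | cons a w ih =>
    rw [opE_cons]
    rw [Module.End.mul_apply]
    rcases ih with ⟨h1, h2, h3⟩ | h
    · rw [h1, G_single]
      split_ifs with hc
      · left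
        refine ⟨?_, ?_, ?_⟩
        · simp [add_assoc]
        · simp only [List.length_cons, wordOf, List.cons.injEq]
          exact ⟨hc.2.symm, h2⟩
        · right
          simp only [List.length_cons]
          omega
      · right; rfl
    · right; rw [h, map_zero]

lemma opE_wordOf (n p l : ℕ) (h : p + l ≤ L n) :
    opE k b (wordOf n p l) (b (n, p)) = b (n, p + l) := by
  induction l with
  | zero => simp [wordOf, opE_nil]
  | succ l ih =>
    rw [wordOf, opE_cons, Module.End.mul_apply, ih (by omega), G_single, if_pos]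
    · simp [add_assoc]
    · exact ⟨by omega, rfl⟩

/-- the counterexample algebra -/
noncomputable def AA : Subalgebra k (Module.End k V) :=
  Algebra.adjoin k (Set.range (G k b))

noncomputable def g (c : Bool) : AA k b := ⟨G k b c, Algebra.subset_adjoin ⟨c, rfl⟩⟩

noncomputable def op (w : List Bool) : AA k b := (w.map (g k b)).prod

lemma op_coe (w : List Bool) : ((op k b w : AA k b) : Module.End k V) = opE k b w := by
  induction w with
  | nil => simp [op, opE]
  | cons a w ih =>
    have : op k b (a :: w) = g k b a * op k b w := by simp [op]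
    rw [this, opE_cons, ← ih]
    rfl

lemma op_canonical (w : List Bool) : op k b w = 0 ∨
    ∃ m ≤ w.length, ∃ s ≤ w.length, w = wordOf m s w.length := by
  by_cases h : opE k b w = 0
  · left
    apply Subtype.ext
    rw [op_coe, h]
    rfl
  · right
    have : ∃ x : ℕ × ℕ, opE k b w (b x) ≠ 0 := by
      by_contra hcon
      push Not at hcon
      apply h
      apply b.ext
      intro x
      rw [hcon x]
      rfl
    obtain ⟨⟨n, p⟩, hx⟩ := this
    rcases opE_single k b w n p with ⟨_, h2, _⟩ | h'
    · obtain ⟨m, hm, s, hs, e⟩ := canonical n p w.length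
      exact ⟨m, hm, s, hs, h2.trans e⟩
    · exact absurd h' hx

/-- span of a set of basis vectors -/
def Sp (S : Set (ℕ × ℕ)) : Submodule k V := Submodule.span k (b '' S)

lemma mem_Sp (S : Set (ℕ × ℕ)) (x : ℕ × ℕ) (hx : x ∈ S) : b x ∈ Sp k b S :=
  Submodule.subset_span ⟨x, hx, rfl⟩

/-- from basis vectors to spans -/
lemma supp_lemma (T : Module.End k V) (S : Set (ℕ × ℕ)) (W : Submodule k V)
    (h : ∀ x ∈ S, T (b x) ∈ W) : ∀ v ∈ Sp k b S, T v ∈ W := by
  intro v hv
  have : Sp k b S ≤ W.comap T := by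
    unfold Sp
    rw [Submodule.span_le]
    rintro _ ⟨x, hx, rfl⟩
    exact h x hx
  exact this hv

lemma pres (S : Set (ℕ × ℕ)) (hS : ∀ m p, (m, p) ∈ S → (m, p + 1) ∈ S)
    (a : Module.End k V) (ha : a ∈ AA k b) :
    ∀ v ∈ Sp k b S, a v ∈ Sp k b S := by
  unfold AA at ha
  induction ha using Algebra.adjoin_induction with
  | mem x hx =>
    obtain ⟨c, rfl⟩ := hx
    apply supp_lemma
    rintro ⟨n, p⟩ hnp
    rw [G_single]
    split_ifs with hc
    · exact mem_Sp k b S _ (hS n p hnp)
    · exact Submodule.zero_mem _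
  | algebraMap r =>
    intro v hv
    rw [Module.algebraMap_end_apply]
    exact Submodule.smul_mem _ _ hv
  | add x y _ _ hx hy =>
    intro v hv
    rw [LinearMap.add_apply]
    exact Submodule.add_mem _ (hx v hv) (hy v hv)
  | mul x y _ _ hx hy =>
    intro v hv
    rw [Module.End.mul_apply]
    exact hx _ (hy v hv)

def Zs (n : ℕ) : Set (ℕ × ℕ) := {x | x.1 ≠ n ∨ L n ≤ x.2}
def Fs (n q : ℕ) : Set (ℕ × ℕ) := {x | x.1 = n ∧ q ≤ x.2}

lemma Zs_closed (n : ℕ) : ∀ m p, (m, p) ∈ Zs n → (m, p + 1) ∈ Zs n := by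
  intro m p h
  rcases h with h | h
  · exact Or.inl h
  · exact Or.inr (Nat.le_succ_of_le h)

lemma Fs_closed (n q : ℕ) : ∀ m p, (m, p) ∈ Fs n q → (m, p + 1) ∈ Fs n q := by
  intro m p h
  exact ⟨h.1, Nat.le_succ_of_le h.2⟩

def Jprop (n : ℕ) (a : Module.End k V) : Prop :=
  (∀ v ∈ Sp k b (Zs n), a v = 0) ∧
  ∀ q, ∀ v ∈ Sp k b (Fs n q), a v ∈ Sp k b (Fs n (q + 1))

def Jset (n : ℕ) : Set (AA k b) := {a | Jprop k b n (a : Module.End k V)}

lemma Jset_zero (n : ℕ) : (0 : AA k b) ∈ Jset k b n :=
  ⟨fun _ _ => rfl, fun _ _ _ => Submodule.zero_mem _⟩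

lemma Jset_add (n : ℕ) {x y : AA k b} (hx : x ∈ Jset k b n) (hy : y ∈ Jset k b n) :
    x + y ∈ Jset k b n := by
  obtain ⟨hx1, hx2⟩ := hx
  obtain ⟨hy1, hy2⟩ := hy
  refine ⟨fun v hv => ?_, fun q v hv => ?_⟩
  · change (x : Module.End k V) v + (y : Module.End k V) v = 0
    rw [hx1 v hv, hy1 v hv, add_zero]
  · exact Submodule.add_mem _ (hx2 q v hv) (hy2 q v hv)

lemma Jset_neg (n : ℕ) {x : AA k b} (hx : x ∈ Jset k b n) : -x ∈ Jset k b n := by
  obtain ⟨hx1, hx2⟩ := hx
  refine ⟨fun v hv => ?_, fun q v hv => ?_⟩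
  · change -((x : Module.End k V) v) = 0
    rw [hx1 v hv, neg_zero]
  · exact Submodule.neg_mem _ (hx2 q v hv)

lemma Jset_left (n : ℕ) {x y : AA k b} (hy : y ∈ Jset k b n) : x * y ∈ Jset k b n := by
  obtain ⟨hy1, hy2⟩ := hy
  refine ⟨fun v hv => ?_, fun q v hv => ?_⟩
  · change (x : Module.End k V) ((y : Module.End k V) v) = 0
    rw [hy1 v hv, map_zero]
  · exact pres k b _ (Fs_closed n (q + 1)) _ x.2 _ (hy2 q v hv)

lemma Jset_right (n : ℕ) {x y : AA k b} (hx : x ∈ Jset k b n) : x * y ∈ Jset k b n := by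
  obtain ⟨hx1, hx2⟩ := hx
  refine ⟨fun v hv => ?_, fun q v hv => ?_⟩
  · exact hx1 _ (pres k b _ (Zs_closed n) _ y.2 _ hv)
  · exact hx2 q _ (pres k b _ (Fs_closed n q) _ y.2 _ hv)

noncomputable def J (n : ℕ) : TwoSidedIdeal (AA k b) :=
  TwoSidedIdeal.mk' (Jset k b n) (Jset_zero k b n) (Jset_add k b n) (Jset_neg k b n)
    (Jset_left k b n) (Jset_right k b n)

lemma mem_J (n : ℕ) (a : AA k b) : a ∈ J k b n ↔ Jprop k b n (a : Module.End k V) :=
  TwoSidedIdeal.mem_mk' _ _ _ _ _ _ a

lemma prod_F (n : ℕ) (l : List (AA k b)) (hl : ∀ a ∈ l, a ∈ J k b n) :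
    ∀ q, ∀ v ∈ Sp k b (Fs n q),
      ((l.prod : AA k b) : Module.End k V) v ∈ Sp k b (Fs n (q + l.length)) := by
  induction l with
  | nil => intro q v hv; simpa using hv
  | cons a l ih =>
    intro q v hv
    have h1 := ih (fun c hc => hl c (List.mem_cons_of_mem _ hc)) q v hv
    have ha := (mem_J k b n a).1 (hl a List.mem_cons_self)
    have h2 := ha.2 _ _ h1
    rw [List.prod_cons, List.length_cons]
    exact h2

lemma prod_Z (n : ℕ) (l : List (AA k b)) (hl : ∀ a ∈ l, a ∈ J k b n) (hne : l ≠ []) :
    ∀ v ∈ Sp k b (Zs n), ((l.prod : AA k b) : Module.End k V) v = 0 := by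
  cases l with
  | nil => exact absurd rfl hne
  | cons a l =>
    intro v hv
    have ha := (mem_J k b n a).1 (hl a List.mem_cons_self)
    rw [List.prod_cons]
    exact ha.1 _ (pres k b _ (Zs_closed n) _ (l.prod).2 v hv)

lemma J_nilp (n : ℕ) : ∃ m : ℕ, ∀ f : Fin m → AA k b, (∀ i, f i ∈ J k b n) →
    (List.ofFn f).prod = 0 := by
  refine ⟨L n + 1, fun f hf => ?_⟩
  have hlen : (List.ofFn f).length = L n + 1 := by simp
  have hl : ∀ a ∈ List.ofFn f, a ∈ J k b n := by
    intro a ha
    rw [List.mem_ofFn] at ha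
    obtain ⟨i, rfl⟩ := ha
    exact hf i
  generalize List.ofFn f = l at hlen hl
  have hne : l ≠ [] := by
    intro h
    rw [h] at hlen
    simp at hlen
  apply Subtype.ext
  apply b.ext
  rintro ⟨m, p⟩
  by_cases hm : m = n
  · subst hm
    cases l with
    | nil => exact absurd rfl hne
    | cons a l =>
      have hv : b (m, p) ∈ Sp k b (Fs m 0) := mem_Sp k b _ _ ⟨rfl, Nat.zero_le _⟩
      have h1 := prod_F k b m l (fun c hc => hl c (List.mem_cons_of_mem _ hc)) 0 _ hv
      have hlen' : l.length = L m := by simpa using hlen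
      have ha := (mem_J k b m a).1 (hl a List.mem_cons_self)
      rw [List.prod_cons]
      refine ha.1 _ ?_
      refine Submodule.span_mono (Set.image_mono ?_) h1
      rintro ⟨x, y⟩ ⟨h2, h3⟩
      right
      rw [hlen', zero_add] at h3
      exact h3
  · exact prod_Z k b n l hl hne _ (mem_Sp k b _ _ (Or.inl hm))

lemma block_mem (n : ℕ) : op k b (wordOf n 0 (2 * (n + 1))) ∈ J k b n := by
  rw [mem_J, op_coe]
  set w := wordOf n 0 (2 * (n + 1)) with hw
  have hlen : w.length = 2 * (n + 1) := wordOf_length _ _ _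
  refine ⟨?_, ?_⟩
  · intro v hv
    have := supp_lemma k b (opE k b w) (Zs n) ⊥ ?_ v hv
    · simpa using this
    · rintro ⟨m, p⟩ hmp
      rw [Submodule.mem_bot]
      rcases opE_single k b w m p with ⟨_, h2, h3⟩ | h
      · exfalso
        rw [hlen] at h2 h3
        have hm := block_unique n m p (hw ▸ h2)
        rcases h3 with h3 | h3
        · rw [h3] at hlen; simp at hlen
        · rcases hmp with h4 | h4
          · exact h4 hm
          · have h4' : L n ≤ p := h4
            rw [hm] at h3
            omega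
      · exact h
  · intro q
    apply supp_lemma
    rintro ⟨m, p⟩ ⟨hm, hp⟩
    rcases opE_single k b w m p with ⟨h1, _, _⟩ | h
    · rw [h1]
      refine mem_Sp k b _ _ ⟨hm, ?_⟩
      rw [hlen]
      have : q ≤ p := hp
      show q + 1 ≤ p + 2 * (n + 1)
      omega
    · rw [h]; exact Submodule.zero_mem _

lemma block_pow (n r : ℕ) (h : 2 * (n + 1) * r ≤ L n) :
    ((opE k b (wordOf n 0 (2 * (n + 1)))) ^ r) (b (n, 0)) = b (n, 2 * (n + 1) * r) := by
  induction r with
  | zero => simp
  | succ r ih =>
    have h' : 2 * (n + 1) * r + 2 * (n + 1) ≤ L n := by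
      calc 2 * (n + 1) * r + 2 * (n + 1) = 2 * (n + 1) * (r + 1) := by ring
        _ ≤ L n := h
    rw [pow_succ', Module.End.mul_apply, ih (by omega), ← wordOf_period n r,
      opE_wordOf k b _ _ _ h']
    congr 1

lemma no_greatest : ¬ ∃ N : TwoSidedIdeal (AA k b),
    (∃ m : ℕ, ∀ f : Fin m → AA k b, (∀ i, f i ∈ N) → (List.ofFn f).prod = 0) ∧
    ∀ I : TwoSidedIdeal (AA k b),
      (∃ m : ℕ, ∀ f : Fin m → AA k b, (∀ i, f i ∈ I) → (List.ofFn f).prod = 0) → I ≤ N := by
  rintro ⟨N, ⟨m, hm⟩, hN⟩
  have h1 := hN (J k b m) (J_nilp k b m)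
  have h2 := h1 (block_mem k b m)
  have h3 := hm (fun _ => op k b (wordOf m 0 (2 * (m + 1)))) (fun _ => h2)
  rw [List.ofFn_const, List.prod_replicate] at h3
  have h4 : ((opE k b (wordOf m 0 (2 * (m + 1)))) ^ m) = 0 := by
    rw [← op_coe]
    have := congrArg (Subtype.val) h3
    simpa using this
  have h5 := block_pow k b m m (by unfold L; nlinarith)
  rw [h4] at h5
  have h6 : b (m, 2 * (m + 1) * m) = 0 := by
    rw [← h5]; rfl
  exact b.ne_zero _ h6

noncomputable def genSet : Set (AA k b) := insert 1 (Set.range (g k b))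

lemma genSet_pow (n : ℕ) : ∀ x ∈ (genSet k b) ^ n,
    ∃ w : List Bool, w.length ≤ n ∧ x = op k b w := by
  induction n with
  | zero =>
    intro x hx
    rw [pow_zero, Set.mem_one] at hx
    exact ⟨[], le_refl _, by rw [hx]; rfl⟩
  | succ n ih =>
    intro x hx
    rw [pow_succ', Set.mem_mul] at hx
    obtain ⟨a, ha, c, hc, rfl⟩ := hx
    obtain ⟨w, hw, rfl⟩ := ih c hc
    rcases ha with rfl | ⟨c, rfl⟩
    · exact ⟨w, by omega, by rw [one_mul]⟩
    · refine ⟨c :: w, by simpa using hw, ?_⟩
      simp [op]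

lemma growth : ∃ V : Submodule k (AA k b), FiniteDimensional k V ∧ (1 : AA k b) ∈ V ∧
    Algebra.adjoin k (V : Set (AA k b)) = ⊤ ∧
    ∃ C d : ℕ, ∀ n : ℕ, Module.finrank k ↥(V ^ n) ≤ C * (n + 1) ^ d := by
  refine ⟨Submodule.span k (genSet k b), ?_, ?_, ?_, 1, 3, ?_⟩
  · apply FiniteDimensional.span_of_finite
    exact Set.Finite.insert _ (Set.finite_range _)
  · exact Submodule.subset_span (Set.mem_insert _ _)
  · rw [Algebra.adjoin_span]
    rw [eq_top_iff]
    have h1 := Algebra.adjoin_adjoin_coe_preimage (R := k) (s := Set.range (G k b))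
    intro x _
    have hx : x ∈ Algebra.adjoin k
        (((↑) : AA k b → Module.End k V) ⁻¹' (Set.range (G k b))) := by
      have : x ∈ (⊤ : Subalgebra k (AA k b)) := trivial
      exact h1 ▸ this
    refine Algebra.adjoin_mono ?_ hx
    rintro ⟨x, hx⟩ ⟨c, hc⟩
    right
    exact ⟨c, Subtype.ext hc⟩
  · intro n
    set f : Fin (n + 1) × Fin (n + 1) × Fin (n + 1) → AA k b :=
      fun x => op k b (wordOf x.1 x.2.1 x.2.2) with hf
    have hle : (Submodule.span k (genSet k b)) ^ n ≤ Submodule.span k (Set.range f) := by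
      rw [Submodule.span_pow, Submodule.span_le]
      intro x hx
      obtain ⟨w, hw, rfl⟩ := genSet_pow k b n x hx
      rcases op_canonical k b w with h | ⟨m, hm, s, hs, e⟩
      · rw [h]; exact Submodule.zero_mem _
      · apply Submodule.subset_span
        refine ⟨(⟨m, by omega⟩, ⟨s, by omega⟩, ⟨w.length, by omega⟩), ?_⟩
        simp only [hf]
        rw [← e]
    haveI : FiniteDimensional k (Submodule.span k (Set.range f)) :=
      FiniteDimensional.span_of_finite k (Set.finite_range f)
    calc Module.finrank k ↥((Submodule.span k (genSet k b)) ^ n)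
        ≤ Module.finrank k ↥(Submodule.span k (Set.range f)) := Submodule.finrank_mono hle
      _ ≤ Fintype.card (Fin (n + 1) × Fin (n + 1) × Fin (n + 1)) := finrank_range_le_card f
      _ = 1 * (n + 1) ^ 3 := by simp; ring

lemma finType : Algebra.FiniteType k (AA k b) := by
  apply (Subalgebra.fg_iff_finiteType _).1
  exact Subalgebra.fg_def.2 ⟨_, Set.finite_range _, rfl⟩

end Alg

end Pool.Agent.MPa19302
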